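import Pool.Agent.P.MP_512a3e_al.Padic

/-! A rank six algebra over the integers whose topological subalgebra zeta function has no pole
at zero. -/

open Pool.Agent.P.MP_512a3e_al in
theorem Pool.Agent.Results.MP_512a3e_al.NoPoleAtZero.result :
    ∃ Z : RatFunc ℚ, IsTopZeta cex Z ∧ (∀ Z' : RatFunc ℚ, IsTopZeta cex Z' → Z' = Z) ∧
      Z.denom.eval 0 ≠ 0 :=
  ⟨topZ, isTopZeta, fun _ h => isTopZeta_unique h isTopZeta, topZ_reg⟩
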